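import Mathlib
import Pool.Agent.Y591.CL.Lower
import Pool.Agent.Y591.CL.Upper

set_option autoImplicit false

namespace Pool.Agent.Results.MP_35a6f4_lc.SharpCount

open Pool.Agent.NPC.H660 Pool.Agent.H660R2.Cfg

/-- **The number of strings in characteristic samples for context-free grammars is the size of the
grammar, up to logarithmic factors.**

1. Positive answer to Q1, with a nearly linear bound: for every finite alphabet (of `k` letters)
   there is a polynomial-time learner `A` such that every context-free grammar `G` has a
   characteristic sample with respect to `A` with at most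
   `24 (k + 4) (‖G‖ + 1) (log₂ (‖G‖ + 1) + 1)` strings.
2. This is optimal up to the logarithms, for every learner: if the alphabet has at least two
   letters and `A` is any map whatsoever from samples to grammars (no bound on its running time, no
   computability and no consistency required), then for every `s` there is a context-free grammar
   `G` with `‖G‖ ≤ s` such that each characteristic sample for `G` with respect to `A` has at least
   `⌊s / (log₂ s + 2)⌋ / 2` strings. -/
theorem result :
    (∀ k : ℕ, ∃ A : Sample k → Gram k, IsLearner A ∧
      ∀ G : ContextFreeGrammar (Fin k), ∃ CS : Finset (Word k) × Finset (Word k),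
        IsCharacteristic A CS G.language ∧
        CS.1.card + CS.2.card ≤ 24 * (k + 4) * (gsize G + 1) * (Nat.log 2 (gsize G + 1) + 1)) ∧
    (∀ k : ℕ, 2 ≤ k → ∀ (A : Sample k → Gram k) (s : ℕ),
      ∃ G : ContextFreeGrammar (Fin k), gsize G ≤ s ∧
        ∀ CS : Finset (Word k) × Finset (Word k), IsCharacteristic A CS G.language →
          s / (Nat.log 2 s + 2) ≤ 2 * (CS.1.card + CS.2.card)) :=
  ⟨fun k => Pool.Agent.Y591.CL.upper k, fun _ hk A s => Pool.Agent.Y591.CL.lower hk A s⟩

end Pool.Agent.Results.MP_35a6f4_lc.SharpCount
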